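import Mathlib

set_option autoImplicit false

namespace Pool.Agent.Results.MP_633f17_co.CrossTS

open Finset

/-- `F` and `G` are cross-`(t,s)` families of subsets of an `n`-set -/
def Cross {n : ℕ} (t s : ℕ) (F G : Finset (Finset (Fin n))) : Prop :=
  ∀ A ∈ F, ∀ B ∈ G, t ≤ (A ∩ B).card ∧ (A ∪ B).card + s ≤ n

/-- the largest size of a `(t,s)`-family -/
noncomputable def m (n t s : ℕ) : ℕ :=
  sSup {k | ∃ F : Finset (Finset (Fin n)), Cross t s F F ∧ F.card = k}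

set_option synthInstance.maxSize 4000 in
lemma three : ∀ A B : Finset (Fin 6), A ≠ B → 3 ≤ (A ∩ B).card → (A ∪ B).card + 2 ≤ 6 →
    ∀ C : Finset (Fin 6), A ≠ C → B ≠ C → 3 ≤ (A ∩ C).card → (A ∪ C).card + 2 ≤ 6 →
    3 ≤ (B ∩ C).card → ¬ (B ∪ C).card + 2 ≤ 6 := by
  decide +kernel

theorem result : ¬ ∀ t s n : ℕ, 1 ≤ t → 1 ≤ s → t + s ≤ n →
    ∀ F G : Finset (Finset (Fin n)), Cross t s F G → F.card * G.card ≤ m n t s ^ 2 := by
  intro h
  have h1 := h 3 2 6 (by norm_num) (by norm_num) (by norm_num)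
    {{0, 1, 2}, {0, 1, 3}, {0, 2, 3}, {1, 2, 3}, {0, 1, 2, 3}} {{0, 1, 2, 3}}
    (by unfold Cross; decide +kernel)
  have h2 : m 6 3 2 ≤ 2 := by
    apply csSup_le'
    rintro k ⟨F, hF, rfl⟩
    by_contra hc
    obtain ⟨A, B, C, hA, hB, hC, h1, h2, h3⟩ := two_lt_card_iff.mp (not_le.mp hc)
    exact three A B h1 (hF A hA B hB).1 (hF A hA B hB).2 C h2 h3 (hF A hA C hC).1
      (hF A hA C hC).2 (hF B hB C hC).1 (hF B hB C hC).2
  have h3 : m 6 3 2 ^ 2 ≤ 2 ^ 2 := Nat.pow_le_pow_left h2 2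
  have h4 : ({{0, 1, 2}, {0, 1, 3}, {0, 2, 3}, {1, 2, 3}, {0, 1, 2, 3}} :
      Finset (Finset (Fin 6))).card * ({{0, 1, 2, 3}} : Finset (Finset (Fin 6))).card = 5 := by
    decide +kernel
  omega

end Pool.Agent.Results.MP_633f17_co.CrossTS
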